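import Mathlib

/-!
# [H61 PR PD1] A positive definite function with finite support has a nonnegative sum

On an abelian group. Only the inequalities `∑_{x,y ∈ F} R(x - y) ≥ 0` are used. Proof: `D = S ∪ {0}`, `B_0 = {0}`,
`B_(n+1) = B_n - D`; `|B_n| ≤ (n+1)^|S|`, so for every `ε > 0` some `n` has `|B_(n+1)| ≤ (1+ε) |B_n|`; the number `N_t` of
pairs in `B_(n+1)` with difference `t ∈ S` is between `|B_n|` and `|B_(n+1)|`.
-/

set_option autoImplicit false

open Finset Filter Topology

namespace Pool.Agent.H61.PR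

variable {A : Type*} [AddCommGroup A] [DecidableEq A]

private def bl (S : Finset A) : ℕ → Finset A
  | 0 => {0}
  | n + 1 => (bl S n ×ˢ insert 0 S).image fun p => p.1 - p.2

private theorem bl_sub (S : Finset A) (n : ℕ) {x t : A} (hx : x ∈ bl S n) (ht : t ∈ insert 0 S) :
    x - t ∈ bl S (n + 1) := by
  rw [bl, mem_image]
  exact ⟨(x, t), mem_product.2 ⟨hx, ht⟩, rfl⟩

private theorem bl_mono (S : Finset A) (n : ℕ) : bl S n ⊆ bl S (n + 1) := by
  intro x hx
  have := bl_sub S n hx (mem_insert_self 0 S)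
  rwa [sub_zero] at this

private theorem bl_ne (S : Finset A) (n : ℕ) : (0 : A) ∈ bl S n := by
  induction n with
  | zero => simp [bl]
  | succ n ih => exact bl_mono S n ih

private theorem bl_rep (S : Finset A) (n : ℕ) : ∀ x ∈ bl S n, ∃ k : A → ℕ,
    (∀ t ∈ S, k t ≤ n) ∧ (∀ t, t ∉ S → k t = 0) ∧ x = -∑ t ∈ S, k t • t := by
  induction n with
  | zero =>
    intro x hx
    rw [bl, mem_singleton] at hx
    exact ⟨fun _ => 0, by simp, by simp, by simp [hx]⟩
  | succ n ih =>
    intro x hx
    rw [bl, mem_image] at hx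
    obtain ⟨⟨y, t0⟩, hp, rfl⟩ := hx
    rw [mem_product] at hp
    obtain ⟨k, hk1, hk2, hk3⟩ := ih y hp.1
    rcases eq_or_ne t0 0 with h0 | h0
    · refine ⟨k, fun t ht => (hk1 t ht).trans (Nat.le_succ n), hk2, ?_⟩
      simp only [h0, sub_zero]
      exact hk3
    · have ht0 : t0 ∈ S := by
        rcases mem_insert.1 hp.2 with h | h
        · exact absurd h h0
        · exact h
      refine ⟨fun t => k t + if t = t0 then 1 else 0, fun t ht => ?_, fun t ht => ?_, ?_⟩
      · have := hk1 t ht
        show k t + (if t = t0 then 1 else 0) ≤ n + 1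
        split_ifs <;> omega
      · have h1 : t ≠ t0 := fun h => ht (h ▸ ht0)
        simp [hk2 t ht, h1]
      · simp only
        have e : ∑ t ∈ S, (k t + if t = t0 then 1 else 0) • t = ∑ t ∈ S, k t • t + t0 := by
          simp_rw [add_smul]
          rw [sum_add_distrib]
          congr 1
          simp [ite_smul, ht0]
        rw [e, hk3]
        abel

private theorem bl_card (S : Finset A) (n : ℕ) : (bl S n).card ≤ (n + 1) ^ S.card := by
  classical
  have h1 : bl S n ⊆ (Fintype.piFinset fun _ : S => range (n + 1)).image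
      fun k : S → ℕ => -∑ t : S, k t • (t : A) := by
    intro x hx
    obtain ⟨k, hk1, -, hk3⟩ := bl_rep S n x hx
    rw [mem_image]
    refine ⟨fun t => k t, ?_, ?_⟩
    · rw [Fintype.mem_piFinset]
      intro t
      rw [mem_range]
      have := hk1 t t.2
      omega
    · rw [hk3]
      congr 1
      exact sum_coe_sort S (fun t => k t • t)
  refine (card_le_card h1).trans (card_image_le.trans ?_)
  rw [Fintype.card_piFinset]
  simp

private theorem exists_step (S : Finset A) {ε : ℝ} (hε : 0 < ε) :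
    ∃ n : ℕ, ((bl S (n + 1)).card : ℝ) ≤ (1 + ε) * (bl S n).card := by
  by_contra hcon
  push Not at hcon
  have h1 : ∀ n : ℕ, (1 + ε) ^ n ≤ ((bl S n).card : ℝ) := by
    intro n
    induction n with
    | zero => simp [bl]
    | succ n ih =>
      rw [pow_succ, mul_comm]
      exact (mul_le_mul_of_nonneg_left ih (by linarith)).trans (hcon n).le
  have h2 : ∀ n : ℕ, (1 + ε) ^ n ≤ ((n : ℝ) + 1) ^ S.card := fun n =>
    (h1 n).trans (by exact_mod_cast bl_card S n)
  have h3 := tendsto_pow_const_div_const_pow_of_one_lt S.card (show (1 : ℝ) < 1 + ε by linarith)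
  have h4 : Tendsto (fun n : ℕ => (((n + 1 : ℕ) : ℝ)) ^ S.card / (1 + ε) ^ (n + 1)) atTop (𝓝 0) :=
    h3.comp (tendsto_add_atTop_nat 1)
  have h5 : ∀ᶠ n : ℕ in atTop, (((n + 1 : ℕ) : ℝ)) ^ S.card / (1 + ε) ^ (n + 1) < 1 / (1 + ε) := by
    refine h4.eventually (gt_mem_nhds ?_)
    positivity
  obtain ⟨n, hn⟩ := h5.exists
  have hp : (0 : ℝ) < (1 + ε) ^ (n + 1) := by positivity
  rw [div_lt_div_iff₀ hp (by linarith), one_mul, pow_succ] at hn
  have h6 := h2 n
  push_cast at hn
  have h7 : (1 + ε) ^ n * (1 + ε) ≤ ((n : ℝ) + 1) ^ S.card * (1 + ε) :=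
    mul_le_mul_of_nonneg_right h6 (by linarith)
  linarith

/-- **A positive definite function with finite support has a nonnegative sum.** -/
theorem pd_sum (R : A → ℂ) (S : Finset A) (hS : ∀ t, t ∉ S → R t = 0)
    (hpd : ∀ F : Finset A, 0 ≤ (∑ x ∈ F, ∑ y ∈ F, R (x - y)).re) :
    0 ≤ (∑ t ∈ S, R t).re := by
  set M : ℝ := ∑ t ∈ S, ‖R t‖ with hM
  have hM0 : 0 ≤ M := sum_nonneg fun t _ => norm_nonneg _
  have key : ∀ ε : ℝ, 0 < ε → -(ε * M) ≤ (∑ t ∈ S, R t).re := by
    intro ε hε
    obtain ⟨n, hn⟩ := exists_step S hε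
    set F := bl S (n + 1) with hF
    -- the numbers of pairs
    set N : A → ℕ := fun t => (F.filter fun x => x - t ∈ F).card with hN
    have hN1 : ∀ t, N t ≤ F.card := fun t => card_filter_le _ _
    have hN2 : ∀ t ∈ S, (bl S n).card ≤ N t := by
      intro t ht
      refine card_le_card fun x hx => ?_
      rw [mem_filter]
      exact ⟨bl_mono S n hx, bl_sub S n hx (mem_insert_of_mem ht)⟩
    have hsum : ∑ x ∈ F, ∑ y ∈ F, R (x - y) = ∑ t ∈ S, (N t : ℂ) * R t := by
      have h1 : ∀ x ∈ F, ∑ y ∈ F, R (x - y) = ∑ t ∈ S, if x - t ∈ F then R t else 0 := by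
        intro x _
        rw [← sum_filter]
        have h2 : ∑ y ∈ F, R (x - y) = ∑ y ∈ F.filter (fun y => x - y ∈ S), R (x - y) := by
          rw [sum_filter]
          refine sum_congr rfl fun y _ => ?_
          split_ifs with h
          · rfl
          · exact hS _ h
        rw [h2]
        refine sum_nbij' (fun y => x - y) (fun t => x - t) ?_ ?_ ?_ ?_ ?_
        · intro y hy
          rw [mem_filter] at hy ⊢
          refine ⟨hy.2, ?_⟩
          rw [sub_sub_cancel]
          exact hy.1
        · intro t ht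
          rw [mem_filter] at ht ⊢
          refine ⟨ht.2, ?_⟩
          rw [sub_sub_cancel]
          exact ht.1
        · intro y _
          exact sub_sub_cancel x y
        · intro t _
          exact sub_sub_cancel x t
        · intro y _
          rfl
      rw [sum_congr rfl h1, sum_comm]
      refine sum_congr rfl fun t _ => ?_
      rw [← sum_filter, sum_const, nsmul_eq_mul]
    have hpos := hpd F
    rw [hsum] at hpos
    have hF0 : (0 : ℝ) < F.card := by
      have : 0 < F.card := card_pos.2 ⟨0, bl_ne S (n + 1)⟩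
      exact_mod_cast this
    -- compare
    have hcmp : ‖∑ t ∈ S, ((F.card : ℂ) - N t) * R t‖ ≤ ε * F.card * M := by
      refine (norm_sum_le _ _).trans ?_
      rw [hM, mul_sum]
      refine sum_le_sum fun t ht => ?_
      rw [norm_mul]
      refine mul_le_mul_of_nonneg_right ?_ (norm_nonneg _)
      have e : ((F.card : ℂ) - N t) = (((F.card : ℝ) - N t : ℝ) : ℂ) := by push_cast; ring
      rw [e, Complex.norm_real, Real.norm_eq_abs]
      have h1 : (N t : ℝ) ≤ F.card := by exact_mod_cast hN1 t
      have h2 : ((bl S n).card : ℝ) ≤ N t := by exact_mod_cast hN2 t ht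
      rw [abs_of_nonneg (by linarith)]
      have h3 : (F.card : ℝ) ≤ (1 + ε) * N t := hn.trans (mul_le_mul_of_nonneg_left h2 (by linarith))
      nlinarith
    have hre : (∑ t ∈ S, ((F.card : ℂ) - N t) * R t).re =
        F.card * (∑ t ∈ S, R t).re - (∑ t ∈ S, (N t : ℂ) * R t).re := by
      have e : ∑ t ∈ S, ((F.card : ℂ) - N t) * R t =
          ((F.card : ℝ) : ℂ) * (∑ t ∈ S, R t) - ∑ t ∈ S, (N t : ℂ) * R t := by
        rw [mul_sum, ← sum_sub_distrib]
        refine sum_congr rfl fun t _ => ?_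
        push_cast
        ring
      rw [e, Complex.sub_re, Complex.re_ofReal_mul]
    have h1 := (Complex.abs_re_le_norm (∑ t ∈ S, ((F.card : ℂ) - N t) * R t)).trans hcmp
    rw [abs_le, hre] at h1
    have h2 : -(ε * F.card * M) ≤ F.card * (∑ t ∈ S, R t).re := by linarith [h1.1]
    have h3 : F.card * (-(ε * M)) ≤ F.card * (∑ t ∈ S, R t).re := by
      calc F.card * (-(ε * M)) = -(ε * F.card * M) := by ring
        _ ≤ _ := h2
    exact le_of_mul_le_mul_left h3 hF0
  by_contra hcon
  rw [not_le] at hcon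
  have h1 := key (-(∑ t ∈ S, R t).re / (2 * (M + 1))) (by
    apply div_pos (by linarith)
    positivity)
  have h2 : -(∑ t ∈ S, R t).re / (2 * (M + 1)) * M ≤ -(∑ t ∈ S, R t).re / 2 := by
    rw [div_mul_eq_mul_div, div_le_div_iff₀ (by positivity) (by norm_num)]
    nlinarith
  linarith

end Pool.Agent.H61.PR
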