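import Mathlib

/-!
# [H61 PR EXT] The continuation of a Dirichlet series by partial summation

`B(n) = ∑_{k ≤ n} b(k)`, `|B(n)| ≤ C n`, `∑ |B(n)| n^(-1-w) < ∞` for all `w > α ≥ 0`. Then
`∑ b(n) n^(-s)` (for `Re s > 1`) is continued by `P(s) = ∑ B(n) (n^(-s) - (n+1)^(-s))`, analytic for
`Re s > α`, `|P(s)| ≤ K_w |s|` for `Re s ≥ w > α`.
-/

set_option autoImplicit false

open Filter Topology Complex

namespace Pool.Agent.H61.PR

private theorem br (s : ℂ) (hs : 0 ≤ s.re) (n : ℕ) (hn : 1 ≤ n) :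
    ‖(n : ℂ) ^ (-s) - ((n : ℂ) + 1) ^ (-s)‖ ≤ ‖s‖ * (n : ℝ) ^ (-s.re - 1) := by
  have hn0 : (0 : ℝ) < n := by exact_mod_cast hn
  have hpos : ∀ x ∈ Set.Icc (n : ℝ) (n + 1), 0 < x := fun x hx => lt_of_lt_of_le hn0 hx.1
  have hder : ∀ x : ℝ, 0 < x →
      HasDerivAt (fun y : ℝ => (y : ℂ) ^ (-s)) (-s * (x : ℂ) ^ (-s - 1)) x := by
    intro x hx
    have h1 : HasDerivAt (fun z : ℂ => z ^ (-s)) (-s * (x : ℂ) ^ (-s - 1) * 1) (x : ℂ) :=
      (hasDerivAt_id (x : ℂ)).cpow_const (Complex.ofReal_mem_slitPlane.mpr hx)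
    simpa using h1.comp_ofReal
  have hconv : Convex ℝ (Set.Icc (n : ℝ) (n + 1)) := convex_Icc _ _
  have h1 := hconv.norm_image_sub_le_of_norm_hasDerivWithin_le
    (f := fun y : ℝ => (y : ℂ) ^ (-s)) (f' := fun y : ℝ => -s * (y : ℂ) ^ (-s - 1))
    (C := ‖s‖ * (n : ℝ) ^ (-s.re - 1)) (x := (n : ℝ) + 1) (y := n)
    (fun y hy => (hder y (hpos y hy)).hasDerivWithinAt) (fun y hy => by
      rw [norm_mul, norm_neg, Complex.norm_cpow_eq_rpow_re_of_pos (hpos y hy)]
      apply mul_le_mul_of_nonneg_left _ (norm_nonneg _)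
      have e2 : (-s - 1).re = -s.re - 1 := by simp
      rw [e2]
      exact Real.rpow_le_rpow_of_nonpos hn0 hy.1 (by linarith))
    ⟨by linarith, le_refl _⟩ ⟨le_refl _, by linarith⟩
  have e : ‖(n : ℝ) - ((n : ℝ) + 1)‖ = 1 := by
    rw [sub_add_cancel_left, norm_neg, norm_one]
  rw [e, mul_one] at h1
  simpa using h1

/-- the terms -/
private noncomputable def T (B : ℕ → ℝ) (n : ℕ) (s : ℂ) : ℂ :=
  ((B n : ℝ) : ℂ) * ((n : ℂ) ^ (-s) - ((n : ℂ) + 1) ^ (-s))

private theorem T_bound {B : ℕ → ℝ} (hB0 : B 0 = 0) {w : ℝ} (hw : 0 ≤ w) (n : ℕ) {s : ℂ}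
    (hs : w ≤ s.re) : ‖T B n s‖ ≤ ‖s‖ * (|B n| * (n : ℝ) ^ (-(1 + w))) := by
  unfold T
  rcases Nat.eq_zero_or_pos n with rfl | hn
  · rw [hB0]
    simp
  · have h1 := br s (hw.trans hs) n hn
    have hn1 : (1 : ℝ) ≤ n := by exact_mod_cast hn
    rw [norm_mul, norm_real, Real.norm_eq_abs]
    have h2 : (n : ℝ) ^ (-s.re - 1) ≤ (n : ℝ) ^ (-(1 + w)) :=
      Real.rpow_le_rpow_of_exponent_le hn1 (by linarith)
    calc |B n| * _ ≤ |B n| * (‖s‖ * (n : ℝ) ^ (-(1 + w))) :=
          mul_le_mul_of_nonneg_left (h1.trans (mul_le_mul_of_nonneg_left h2 (norm_nonneg _)))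
            (abs_nonneg _)
      _ = _ := by ring

private theorem T_diff {B : ℕ → ℝ} (hB0 : B 0 = 0) (n : ℕ) : Differentiable ℂ (T B n) := by
  intro s
  unfold T
  rcases Nat.eq_zero_or_pos n with rfl | hn
  · rw [hB0]
    simp
  · have hn0 : (n : ℂ) ≠ 0 := by
      have : n ≠ 0 := by omega
      exact_mod_cast this
    have hn1 : (n : ℂ) + 1 ≠ 0 := by
      exact_mod_cast Nat.succ_ne_zero n
    have d2 : DifferentiableAt ℂ (fun s : ℂ => (n : ℂ) ^ (-s)) s :=
      (differentiableAt_id.neg).const_cpow (Or.inl hn0)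
    have d3 : DifferentiableAt ℂ (fun s : ℂ => ((n : ℂ) + 1) ^ (-s)) s :=
      (differentiableAt_id.neg).const_cpow (Or.inl hn1)
    exact (d2.sub d3).const_mul _

private theorem part {B b : ℕ → ℝ} (hB0 : B 0 = 0) (hBs : ∀ n, B (n + 1) = B n + b (n + 1))
    (s : ℂ) (N : ℕ) :
    ∑ n ∈ Finset.range (N + 1), LSeries.term (fun n => ((b n : ℝ) : ℂ)) s n =
      ∑ n ∈ Finset.range (N + 1), T B n s + ((B N : ℝ) : ℂ) * ((N : ℂ) + 1) ^ (-s) := by
  induction N with
  | zero => simp [T, hB0]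
  | succ N ih =>
    rw [Finset.sum_range_succ, ih, Finset.sum_range_succ _ (N + 1)]
    rw [LSeries.term_of_ne_zero (Nat.succ_ne_zero N)]
    have e : ((b (N + 1) : ℝ) : ℂ) = ((B (N + 1) : ℝ) : ℂ) - ((B N : ℝ) : ℂ) := by
      rw [hBs]
      push_cast
      ring
    rw [e]
    unfold T
    rw [div_eq_mul_inv, ← Complex.cpow_neg]
    push_cast
    ring

/-- **Continuation by partial summation.** -/
theorem ext (B b : ℕ → ℝ) (α C : ℝ) (hα : 0 ≤ α) (hBC : ∀ n : ℕ, |B n| ≤ C * n)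
    (hBs : ∀ n, B (n + 1) = B n + b (n + 1))
    (hbs : ∀ s : ℂ, 1 < s.re → LSeriesSummable (fun n => ((b n : ℝ) : ℂ)) s)
    (hsum : ∀ w : ℝ, α < w → Summable fun n : ℕ => |B n| * (n : ℝ) ^ (-(1 + w))) :
    ∃ P : ℂ → ℂ, (∀ s : ℂ, α < s.re → AnalyticAt ℂ P s) ∧
      (∀ s : ℂ, 1 < s.re → P s = LSeries (fun n => ((b n : ℝ) : ℂ)) s) ∧
      ∀ w : ℝ, α < w → ∃ K : ℝ, 0 ≤ K ∧ ∀ s : ℂ, w ≤ s.re → ‖P s‖ ≤ K * ‖s‖ := by
  have hB0 : B 0 = 0 := by
    have := hBC 0
    simpa using this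
  refine ⟨fun s => ∑' n, T B n s, ?_, ?_, ?_⟩
  · intro s hs
    obtain ⟨w, hw1, hw2⟩ := exists_between hs
    set U : Set ℂ := {z : ℂ | w < z.re ∧ ‖z‖ < ‖s‖ + 1} with hU
    have hUo : IsOpen U := (isOpen_lt continuous_const Complex.continuous_re).inter
      (isOpen_lt continuous_norm continuous_const)
    have h1 : DifferentiableOn ℂ (fun s => ∑' n, T B n s) U := by
      refine differentiableOn_tsum_of_summable_norm
        (u := fun n => (‖s‖ + 1) * (|B n| * (n : ℝ) ^ (-(1 + w)))) ?_ ?_ hUo ?_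
      · exact (hsum w hw1).mul_left _
      · exact fun n => (T_diff hB0 n).differentiableOn
      · intro n z hz
        refine (T_bound hB0 (by linarith) n hz.1.le).trans ?_
        exact mul_le_mul_of_nonneg_right hz.2.le (by positivity)
    exact h1.analyticAt (hUo.mem_nhds ⟨hw2, by linarith⟩)
  · intro s hs
    have hC : 0 ≤ C := by
      have := (abs_nonneg _).trans (hBC 1)
      simpa using this
    -- summability of T
    have h1 : Summable fun n => T B n s := by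
      rcases le_or_gt α 1 with hα1 | hα1
      · obtain ⟨w, hw1, hw2⟩ := exists_between hs
        refine Summable.of_norm_bounded ((hsum w (by linarith)).mul_left ‖s‖) ?_
        intro n
        exact T_bound hB0 (by linarith) n hw2.le
      · obtain ⟨w, hw1, hw2⟩ := exists_between hs
        have h3 : Summable fun n : ℕ => (n : ℝ) ^ (-w) := by
          rw [Real.summable_nat_rpow]
          linarith
        refine Summable.of_norm_bounded (h3.mul_left (‖s‖ * C)) ?_
        intro n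
        refine (T_bound hB0 (by linarith) n hw2.le).trans ?_
        rcases Nat.eq_zero_or_pos n with rfl | hn
        · rw [hB0]
          simp only [abs_zero, zero_mul, mul_zero]
          positivity
        · have hn0 : (0 : ℝ) < n := by exact_mod_cast hn
          have e : (n : ℝ) ^ (-w) = n * (n : ℝ) ^ (-(1 + w)) := by
            nth_rewrite 2 [← Real.rpow_one (n : ℝ)]
            rw [← Real.rpow_add hn0]
            congr 1
            ring
          rw [e]
          have h4 := hBC n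
          have h5 : 0 ≤ (n : ℝ) ^ (-(1 + w)) := by positivity
          calc ‖s‖ * (|B n| * (n : ℝ) ^ (-(1 + w))) ≤ ‖s‖ * (C * n * (n : ℝ) ^ (-(1 + w))) :=
                mul_le_mul_of_nonneg_left (mul_le_mul_of_nonneg_right h4 h5) (norm_nonneg _)
            _ = _ := by ring
    have h2 := h1.hasSum.tendsto_sum_nat
    have h3 := (hbs s hs).hasSum.tendsto_sum_nat
    have h2' := h2.comp (tendsto_add_atTop_nat 1)
    have h3' := h3.comp (tendsto_add_atTop_nat 1)
    have h4 : Tendsto (fun N : ℕ => ((B N : ℝ) : ℂ) * ((N : ℂ) + 1) ^ (-s)) atTop (𝓝 0) := by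
      rw [tendsto_zero_iff_norm_tendsto_zero]
      have h5 : Tendsto (fun N : ℕ => C * ((N : ℝ) + 1) ^ (-(s.re - 1))) atTop (𝓝 0) := by
        have h6 : Tendsto (fun N : ℕ => ((N : ℝ) + 1) ^ (-(s.re - 1))) atTop (𝓝 0) :=
          (tendsto_rpow_neg_atTop (by linarith)).comp
            (tendsto_atTop_add_const_right _ 1 tendsto_natCast_atTop_atTop)
        simpa using h6.const_mul C
      refine squeeze_zero (fun _ => norm_nonneg _) (fun N => ?_) h5
      have hN : (0 : ℝ) < (N : ℝ) + 1 := by positivity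
      have e1 : ((N : ℂ) + 1) = (((N : ℝ) + 1 : ℝ) : ℂ) := by push_cast; rfl
      rw [norm_mul, norm_real, Real.norm_eq_abs, e1, Complex.norm_cpow_eq_rpow_re_of_pos hN]
      have e2 : ((N : ℝ) + 1) ^ (-(s.re - 1)) = ((N : ℝ) + 1) * ((N : ℝ) + 1) ^ ((-s).re) := by
        nth_rewrite 2 [← Real.rpow_one ((N : ℝ) + 1)]
        rw [← Real.rpow_add hN]
        congr 1
        rw [neg_re]
        ring
      rw [e2]
      have h7 := hBC N
      have h8 : 0 ≤ ((N : ℝ) + 1) ^ ((-s).re) := by positivity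
      calc |B N| * ((N : ℝ) + 1) ^ ((-s).re) ≤ (C * ((N : ℝ) + 1)) * ((N : ℝ) + 1) ^ ((-s).re) := by
            refine mul_le_mul_of_nonneg_right (h7.trans ?_) h8
            nlinarith
        _ = _ := by ring
    have h5 : Tendsto (fun N : ℕ => ∑ n ∈ Finset.range (N + 1),
        LSeries.term (fun n => ((b n : ℝ) : ℂ)) s n) atTop (𝓝 (∑' n, T B n s + 0)) := by
      have h6 := h2'.add h4
      refine h6.congr fun N => ?_
      rw [part hB0 hBs s N]
      rfl
    rw [add_zero] at h5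
    exact tendsto_nhds_unique h5 h3'
  · intro w hw
    refine ⟨∑' n : ℕ, |B n| * (n : ℝ) ^ (-(1 + w)), tsum_nonneg fun n => by positivity, ?_⟩
    intro s hs
    have h1 : HasSum (fun n : ℕ => ‖s‖ * (|B n| * (n : ℝ) ^ (-(1 + w))))
        (‖s‖ * ∑' n : ℕ, |B n| * (n : ℝ) ^ (-(1 + w))) := (hsum w hw).hasSum.mul_left _
    rw [mul_comm]
    exact tsum_of_norm_bounded h1 fun n => T_bound hB0 (by linarith) n hs

end Pool.Agent.H61.PR
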