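import Mathlib

/-!
# [H61 PR LIO] A Liouville lemma for a symmetric function

`f` analytic on the closed half plane `Re s ≥ 1/2`, `f(1-s) = f(s)` near the line `Re s = 1/2`,
`|f(s)| ≤ C (1 + |s|) + C / (Re s - 1/2)^2` for `Re s > 1/2`, `f(x) → 0` as `x → +∞`. Then `f = 0`.

Proof. `E(s) = f(s)` or `f(1-s)` is entire; on the circle `|z - c| = 1`, `Re c = 1/2`, one has
`|(z-c)^2 + 1| = 2 |Re z - 1/2|`, so the maximum principle for `E(z) ((z-c)^2+1)^2` gives
`|E(s)| ≤ K (1 + |s|)`, and `E` is affine.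
-/

set_option autoImplicit false

open Filter Topology Complex

namespace Pool.Agent.H61.PR

/-- the entire extension -/
private noncomputable def E (f : ℂ → ℂ) (s : ℂ) : ℂ :=
  if 1 / 2 ≤ s.re then f s else f (1 - s)

private theorem circ {u : ℂ} (hu : ‖u‖ = 1) : ‖u ^ 2 + 1‖ = 2 * |u.re| := by
  have h1 : u * (starRingEnd ℂ) u = 1 := by
    rw [Complex.mul_conj, Complex.normSq_eq_norm_sq, hu]
    norm_num
  have h2 : u ^ 2 + 1 = u * (u + (starRingEnd ℂ) u) := by
    rw [mul_add, h1]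
    ring
  rw [h2, norm_mul, hu, one_mul, Complex.add_conj, Complex.norm_real, Real.norm_eq_abs, abs_mul]
  norm_num

private theorem E_diff {f : ℂ → ℂ} (hf : ∀ s : ℂ, 1 / 2 ≤ s.re → AnalyticAt ℂ f s)
    (hsym : ∀ s : ℂ, s.re = 1 / 2 → ∀ᶠ z in 𝓝 s, f (1 - z) = f z) :
    Differentiable ℂ (E f) := by
  intro s
  rcases lt_trichotomy s.re (1 / 2) with h | h | h
  · have h1 : ∀ᶠ z : ℂ in 𝓝 s, z.re < 1 / 2 :=
      (isOpen_lt Complex.continuous_re continuous_const).mem_nhds h
    have h2 : E f =ᶠ[𝓝 s] fun z => f (1 - z) := by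
      filter_upwards [h1] with z hz
      simp only [E]
      rw [if_neg (not_le.2 hz)]
    refine DifferentiableAt.congr_of_eventuallyEq ?_ h2
    have h3 : DifferentiableAt ℂ f (1 - s) := (hf (1 - s) (by
      rw [sub_re, one_re]; linarith)).differentiableAt
    exact DifferentiableAt.comp s h3 (by fun_prop)
  · have h2 : E f =ᶠ[𝓝 s] f := by
      filter_upwards [hsym s h] with z hz
      simp only [E]
      split_ifs
      · rfl
      · exact hz
    exact (hf s h.ge).differentiableAt.congr_of_eventuallyEq h2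
  · have h1 : ∀ᶠ z : ℂ in 𝓝 s, 1 / 2 < z.re :=
      (isOpen_lt continuous_const Complex.continuous_re).mem_nhds h
    have h2 : E f =ᶠ[𝓝 s] f := by
      filter_upwards [h1] with z hz
      simp only [E]
      rw [if_pos hz.le]
    exact (hf s h.le).differentiableAt.congr_of_eventuallyEq h2

private theorem E_off {f : ℂ → ℂ} {C : ℝ}
    (hb : ∀ s : ℂ, 1 / 2 < s.re → ‖f s‖ ≤ C * (1 + ‖s‖) + C / (s.re - 1 / 2) ^ 2) (hC : 0 ≤ C)
    {s : ℂ} (hs : s.re ≠ 1 / 2) :
    ‖E f s‖ ≤ C * (2 + ‖s‖) + C / (s.re - 1 / 2) ^ 2 := by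
  simp only [E]
  split_ifs with h
  · have h1 : 1 / 2 < s.re := lt_of_le_of_ne h (Ne.symm hs)
    refine (hb s h1).trans ?_
    gcongr
    norm_num
  · rw [not_le] at h
    have h1 : 1 / 2 < (1 - s).re := by rw [sub_re, one_re]; linarith
    refine (hb (1 - s) h1).trans ?_
    have h2 : ‖1 - s‖ ≤ 1 + ‖s‖ := by
      refine (norm_sub_le _ _).trans ?_
      rw [norm_one]
    have h3 : ((1 - s).re - 1 / 2) ^ 2 = (s.re - 1 / 2) ^ 2 := by
      rw [sub_re, one_re]
      ring
    rw [h3]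
    have h4 : C * (1 + ‖1 - s‖) ≤ C * (2 + ‖s‖) :=
      mul_le_mul_of_nonneg_left (by linarith) hC
    linarith

private theorem E_bound {f : ℂ → ℂ} {C : ℝ} (hf : ∀ s : ℂ, 1 / 2 ≤ s.re → AnalyticAt ℂ f s)
    (hsym : ∀ s : ℂ, s.re = 1 / 2 → ∀ᶠ z in 𝓝 s, f (1 - z) = f z) (hC : 0 ≤ C)
    (hb : ∀ s : ℂ, 1 / 2 < s.re → ‖f s‖ ≤ C * (1 + ‖s‖) + C / (s.re - 1 / 2) ^ 2) (s : ℂ) :
    ‖E f s‖ ≤ 40 * C * (1 + ‖s‖) := by
  have hs0 := norm_nonneg s
  rcases le_or_gt (1 / 4) |s.re - 1 / 2| with h | h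
  · have hne : s.re ≠ 1 / 2 := by
      intro h0
      rw [h0, sub_self, abs_zero] at h
      norm_num at h
    refine (E_off hb hC hne).trans ?_
    have h1 : (1 / 16 : ℝ) ≤ (s.re - 1 / 2) ^ 2 := by
      rw [← sq_abs]
      nlinarith
    have h2 : C / (s.re - 1 / 2) ^ 2 ≤ 16 * C := by
      rw [div_le_iff₀ (by linarith)]
      nlinarith
    nlinarith
  · set c : ℂ := ⟨1 / 2, s.im⟩ with hc
    set h' : ℂ → ℂ := fun z => E f z * ((z - c) ^ 2 + 1) ^ 2 with hh
    have hd : Differentiable ℂ h' := by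
      have h1 := E_diff hf hsym
      have h2 : Differentiable ℂ fun z : ℂ => ((z - c) ^ 2 + 1) ^ 2 := by fun_prop
      exact h1.mul h2
    have hsc : ‖s - c‖ = |s.re - 1 / 2| := by
      have e : s - c = ((s.re - 1 / 2 : ℝ) : ℂ) := by
        apply Complex.ext
        · simp [hc]
        · simp [hc]
      rw [e, norm_real, Real.norm_eq_abs]
    have hmax : ‖h' s‖ ≤ 4 * (C * (2 + (‖s‖ + 5 / 4))) + 4 * C := by
      refine Complex.norm_le_of_forall_mem_frontier_norm_le (U := Metric.ball c 1)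
        Metric.isBounded_ball hd.diffContOnCl ?_ ?_
      · intro z hz
        rw [frontier_ball c one_ne_zero, Metric.mem_sphere, dist_eq_norm] at hz
        have h1 := circ hz
        have h2 : (z - c).re = z.re - 1 / 2 := by simp [hc]
        rw [h2] at h1
        simp only [hh]
        rw [norm_mul, norm_pow, h1]
        rcases eq_or_ne z.re (1 / 2) with h3 | h3
        · have e0 : (2 * |z.re - 1 / 2|) ^ 2 = 0 := by
            rw [h3]
            norm_num
          rw [e0, mul_zero]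
          positivity
        · have h4 := E_off hb hC h3
          have h5 : (2 * |z.re - 1 / 2|) ^ 2 = 4 * (z.re - 1 / 2) ^ 2 := by
            rw [mul_pow, sq_abs]
            norm_num
          have h6 : (z.re - 1 / 2) ^ 2 ≤ 1 := by
            have h7 := Complex.abs_re_le_norm (z - c)
            rw [h2, hz] at h7
            rw [← sq_abs]
            have := abs_nonneg (z.re - 1 / 2)
            nlinarith
          have h6' : 0 < (z.re - 1 / 2) ^ 2 := by
            have : z.re - 1 / 2 ≠ 0 := sub_ne_zero.2 h3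
            positivity
          have h8 : ‖z‖ ≤ ‖s‖ + 5 / 4 := by
            have e : z = s + ((z - c) - (s - c)) := by ring
            have h9 : ‖z‖ ≤ ‖s‖ + (‖z - c‖ + ‖s - c‖) := by
              calc ‖z‖ = ‖s + ((z - c) - (s - c))‖ := by rw [← e]
                _ ≤ ‖s‖ + ‖(z - c) - (s - c)‖ := norm_add_le _ _
                _ ≤ _ := by gcongr; exact norm_sub_le _ _
            rw [hz, hsc] at h9
            linarith
          rw [h5]
          have h10 : ‖E f z‖ * (4 * (z.re - 1 / 2) ^ 2) ≤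
              (C * (2 + ‖z‖) + C / (z.re - 1 / 2) ^ 2) * (4 * (z.re - 1 / 2) ^ 2) :=
            mul_le_mul_of_nonneg_right h4 (by positivity)
          refine h10.trans ?_
          have e2 : (C * (2 + ‖z‖) + C / (z.re - 1 / 2) ^ 2) * (4 * (z.re - 1 / 2) ^ 2) =
              4 * (C * (2 + ‖z‖)) * (z.re - 1 / 2) ^ 2 + 4 * C := by
            generalize (z.re - 1 / 2) ^ 2 = q at h6'
            have e3 : C / q * (4 * q) = 4 * C := by
              field_simp
            rw [add_mul, e3]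
            ring
          rw [e2]
          have h11 : C * (2 + ‖z‖) ≤ C * (2 + (‖s‖ + 5 / 4)) := by gcongr
          have h12 : 0 ≤ C * (2 + ‖z‖) := by positivity
          nlinarith
      · refine subset_closure ?_
        rw [Metric.mem_ball, dist_eq_norm, hsc]
        linarith
    have h3 : (15 / 16 : ℝ) ≤ ‖(s - c) ^ 2 + 1‖ := by
      have h4 : ‖(s - c) ^ 2‖ ≤ 1 / 16 := by
        rw [norm_pow, hsc]
        have := abs_nonneg (s.re - 1 / 2)
        nlinarith
      have h5 : (1 : ℝ) ≤ ‖(s - c) ^ 2 + 1‖ + ‖(s - c) ^ 2‖ := by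
        calc (1 : ℝ) = ‖((s - c) ^ 2 + 1) - (s - c) ^ 2‖ := by
              rw [add_sub_cancel_left, norm_one]
          _ ≤ _ := norm_sub_le _ _
      linarith
    have h4 : ‖h' s‖ = ‖E f s‖ * ‖(s - c) ^ 2 + 1‖ ^ 2 := by
      simp only [hh]
      rw [norm_mul, norm_pow]
    rw [h4] at hmax
    have h5 : (1 / 2 : ℝ) ≤ ‖(s - c) ^ 2 + 1‖ ^ 2 := by nlinarith
    have h6 : ‖E f s‖ * (1 / 2) ≤ ‖E f s‖ * ‖(s - c) ^ 2 + 1‖ ^ 2 :=
      mul_le_mul_of_nonneg_left h5 (norm_nonneg _)
    nlinarith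

/-- **Liouville for a symmetric function.** -/
theorem lio (f : ℂ → ℂ) (C : ℝ) (hC : 0 ≤ C)
    (hf : ∀ s : ℂ, 1 / 2 ≤ s.re → AnalyticAt ℂ f s)
    (hsym : ∀ s : ℂ, s.re = 1 / 2 → ∀ᶠ z in 𝓝 s, f (1 - z) = f z)
    (hb : ∀ s : ℂ, 1 / 2 < s.re → ‖f s‖ ≤ C * (1 + ‖s‖) + C / (s.re - 1 / 2) ^ 2)
    (hlim : Tendsto (fun x : ℝ => f (x : ℂ)) atTop (𝓝 0)) :
    ∀ s : ℂ, 1 / 2 ≤ s.re → f s = 0 := by
  have hE := E_diff hf hsym
  have hB := E_bound hf hsym hC hb
  have hg : Differentiable ℂ (dslope (E f) 0) := by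
    intro z
    have h1 : DifferentiableOn ℂ (dslope (E f) 0) Set.univ :=
      (Complex.differentiableOn_dslope Filter.univ_mem).2 hE.differentiableOn
    exact (h1 z (Set.mem_univ z)).differentiableAt Filter.univ_mem
  have hbd : Bornology.IsBounded (Set.range (dslope (E f) 0)) := by
    obtain ⟨K, hK⟩ := (isCompact_closedBall (0 : ℂ) 1).exists_bound_of_continuousOn
      hg.continuous.continuousOn
    refine isBounded_iff_forall_norm_le.2 ⟨max K (120 * C), ?_⟩
    rintro _ ⟨z, rfl⟩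
    rcases le_or_gt ‖z‖ 1 with h | h
    · exact (hK z (by rw [mem_closedBall_zero_iff]; exact h)).trans (le_max_left _ _)
    · refine le_trans ?_ (le_max_right _ _)
      have hz0 : z ≠ 0 := by
        rintro rfl
        rw [norm_zero] at h
        linarith
      rw [dslope_of_ne _ hz0, slope_def_field, sub_zero, norm_div]
      rw [div_le_iff₀ (by linarith)]
      have h1 := hB z
      have h2 := hB 0
      rw [norm_zero] at h2
      have h3 := norm_sub_le (E f z) (E f 0)
      nlinarith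
  obtain ⟨c, hc⟩ := hg.exists_const_forall_eq_of_bounded hbd
  have haff : ∀ z : ℂ, E f z = E f 0 + z * c := by
    intro z
    have h1 := sub_smul_dslope (E f) 0 z
    rw [hc z, sub_zero, smul_eq_mul] at h1
    rw [h1]
    ring
  have hlimE : Tendsto (fun x : ℝ => E f 0 + (x : ℂ) * c) atTop (𝓝 0) := by
    refine hlim.congr' ?_
    filter_upwards [eventually_ge_atTop (1 : ℝ)] with x hx
    rw [← haff]
    simp only [E]
    rw [if_pos (by rw [ofReal_re]; linarith)]
  have hc0 : c = 0 := by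
    have h1 : Tendsto (fun x : ℝ => E f 0 + ((x + 1 : ℝ) : ℂ) * c) atTop (𝓝 0) :=
      hlimE.comp (tendsto_atTop_add_const_right _ 1 tendsto_id)
    have h2 := h1.sub hlimE
    have h3 : (fun x : ℝ => E f 0 + ((x + 1 : ℝ) : ℂ) * c - (E f 0 + (x : ℂ) * c)) = fun _ => c := by
      funext x
      push_cast
      ring
    rw [h3, sub_zero] at h2
    exact tendsto_nhds_unique tendsto_const_nhds h2
  have h0 : E f 0 = 0 := by
    rw [hc0] at hlimE
    simp only [mul_zero, add_zero] at hlimE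
    exact tendsto_nhds_unique tendsto_const_nhds hlimE
  intro s hs
  have h1 := haff s
  rw [h0, hc0, mul_zero, add_zero] at h1
  simp only [E] at h1
  rwa [if_pos hs] at h1

end Pool.Agent.H61.PR
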